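import Pool.Agent.H4.Braid

set_option autoImplicit false

namespace Pool.Agent.Results.MP_31c3fe_co.Two

open Pool.Agent.H4.Braid

/-- Words over `B`, adjacent when they differ by one braid move `sts -> tst` with `m(s,t) = 3`. -/
def braidGraph {B : Type} (M : CoxeterMatrix B) : SimpleGraph (List B) where
  Adj w w' := ∃ p q s t, M s t = 3 ∧ w = p ++ [s, t, s] ++ q ∧ w' = p ++ [t, s, t] ++ q
  symm := ⟨fun _ _ ⟨p, q, s, t, h, a, b⟩ => ⟨p, q, t, s, M.symmetric s t ▸ h, b, a⟩⟩
  loopless := ⟨fun _ ⟨p, q, s, t, h, a, b⟩ => by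
    have : s = t := And.left (by simpa using a.symm.trans b : s = t ∧ t = s ∧ s = t)
    rw [this, M.diagonal] at h
    omega⟩

/-- The set of vertices on some shortest path from `u` to `v`. -/
def interval {V : Type} (G : SimpleGraph V) (u v : V) : Set V :=
  {w | ∃ p : G.Walk u v, p.length = G.dist u v ∧ w ∈ p.support}

variable {B W : Type} [Group W] {M : CoxeterMatrix B}

def R (M : CoxeterMatrix B) (a b : Option B) : Prop := ∃ s t, a = some s ∧ b = some t ∧ M s t = 3

lemma mv_of (p q : List B) {s t : B} (h : M s t = 3) : Mv (R M) p.length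
    (fun i => (p ++ [s, t, s] ++ q)[i]?) (fun i => (p ++ [t, s, t] ++ q)[i]?) := by
  refine ⟨by simp, ⟨s, t, by simp, by simp, h⟩, by simp, by simp, by simp, fun i a b c => ?_⟩
  simp only [List.append_assoc]
  by_cases k : i < p.length
  · rw [List.getElem?_append_left k, List.getElem?_append_left k]
  · obtain ⟨j, rfl⟩ : ∃ j, i = p.length + (j + 3) := ⟨i - p.length - 3, by omega⟩
    simp [List.getElem?_append_right]

lemma dec (y : List B) (d : ℕ) {a : B} (h : y[d]? = some a) : y.drop d = a :: y.drop (d + 1) := by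
  obtain ⟨h1, rfl⟩ := List.getElem?_eq_some_iff.1 h
  exact List.drop_eq_getElem_cons h1

lemma lift (n : ℕ) (y : List B) (x : ℕ → Option B) (h : St (R M) 0 n (fun i => y[i]?) x) :
    ∃ y', (braidGraph M).Adj y y' ∧ (fun i => y'[i]?) = x := by
  obtain ⟨d, -, -, g⟩ := h
  obtain ⟨s, t, a, b, hm⟩ := g.2.1
  have c := g.1.symm.trans a
  have hd : (y.take d).length = d := by
    have := (List.getElem?_eq_some_iff.1 a).1
    simp; omega
  have e : y = y.take d ++ [s, t, s] ++ y.drop (d + 3) := by
    conv_lhs => rw [← List.take_append_drop d y, dec y d a, dec y _ b, dec y _ c]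
    simp
  refine ⟨_, ⟨y.take d, y.drop (d + 3), s, t, hm, e, rfl⟩, ?_⟩
  have g' := mv_of (y.take d) (y.drop (d + 3)) hm
  rw [← e, hd] at g'
  funext i
  by_cases c0 : i = d
  · rw [c0]; exact g'.2.2.1.trans g.2.2.1.symm
  by_cases c1 : i = d + 1
  · rw [c1]; exact g'.2.2.2.1.trans g.2.2.2.1.symm
  by_cases c2 : i = d + 2
  · rw [c2]; exact g'.2.2.2.2.1.trans g.2.2.2.2.1.symm
  exact (g'.2.2.2.2.2 i c0 c1 c2).trans (g.2.2.2.2.2 i c0 c1 c2).symm

lemma keep (cs : CoxeterSystem M W) {y y' : List B} (h : (braidGraph M).Reachable y y') :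
    y'.length = y.length ∧ cs.wordProd y' = cs.wordProd y := by
  rw [SimpleGraph.reachable_iff_reflTransGen] at h
  induction h with
  | refl => exact ⟨rfl, rfl⟩
  | tail _ h ih =>
    obtain ⟨p, q, s, t, hm, rfl, rfl⟩ := h
    refine ⟨by simpa using ih.1, ?_⟩
    rw [← ih.2]
    have := cs.wordProd_braidWord_eq s t
    simp only [CoxeterSystem.braidWord, hm, M.symmetric t s] at this
    simp only [cs.wordProd_append]
    congr 2

/-- In a simply-laced triangle-free Coxeter system, every braid class of a reduced expression is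
the interval between two of its members. -/
theorem result : ∀ (B W : Type) [Finite B] [Group W] (M : CoxeterMatrix B) (cs : CoxeterSystem M W),
    (∀ s t, s ≠ t → M s t = 2 ∨ M s t = 3) →
    (∀ s t u, ¬ (M s t = 3 ∧ M t u = 3 ∧ M s u = 3)) →
    ∀ α : List B, cs.IsReduced α → ∃ u v, (braidGraph M).Reachable α u ∧
      (braidGraph M).Reachable α v ∧
      interval (braidGraph M) u v = {w | (braidGraph M).Reachable α w} := by
  intro B W _ _ M cs _ htri α hα
  have H : TF (R M) := ⟨fun _ _ ⟨s, t, a, b, h⟩ => ⟨t, s, b, a, M.symmetric s t ▸ h⟩,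
    fun _ ⟨s, t, a, b, h⟩ => by
      obtain rfl : s = t := by simpa using a.symm.trans b
      rw [M.diagonal] at h; omega,
    fun _ _ _ ⟨s, t, a, b, h⟩ ⟨s', t', a', b', h'⟩ ⟨s'', t'', a'', b'', h''⟩ => by
      obtain rfl : t = s' := by simpa using b.symm.trans a'
      obtain rfl : s = s'' := by simpa using a.symm.trans a''
      obtain rfl : t' = t'' := by simpa using b'.symm.trans b''
      exact htri _ _ _ ⟨h, h', h''⟩⟩
  have hg : Good (R M) 0 α.length (fun i => α[i]?) := by
    intro x e i _ hi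
    obtain ⟨y, hy, rfl⟩ : ∃ y, (braidGraph M).Reachable α y ∧ (fun i => y[i]?) = x := by
      induction e with
      | refl => exact ⟨α, .rfl, rfl⟩
      | tail _ h ih =>
        obtain ⟨y, hy, rfl⟩ := ih
        obtain ⟨y', a, b⟩ := lift _ y _ h
        exact ⟨y', hy.trans a.reachable, b⟩
    intro k
    obtain ⟨k1, k2⟩ := keep cs hy
    have a : y[i]? = some (y[i]'(by omega)) := List.getElem?_eq_getElem _
    have e : y = y.take i ++ (y[i]'(by omega) :: y[i]'(by omega) :: y.drop (i + 2)) := by
      conv_lhs => rw [← List.take_append_drop i y, dec y i a, dec y _ (k.symm.trans a)]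
    have h1 := cs.length_wordProd_le (y.take i ++ y.drop (i + 2))
    have h2 : cs.wordProd y = cs.wordProd (y.take i ++ y.drop (i + 2)) := by
      conv_lhs => rw [e]
      simp only [cs.wordProd_append, cs.wordProd_cons, cs.simple_mul_simple_cancel_left]
    rw [← h2, k2, hα.eq] at h1
    simp at h1
    omega
  obtain ⟨u, v, hu, hv, h⟩ := geod (braidGraph M) (fun y i => y[i]?) H α hg
    (fun y y' e => List.ext_getElem? (congrFun e))
    (fun y y' hy ⟨p, q, s, t, hm, a, b⟩ => by
      have := (keep cs hy).1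
      subst a b
      exact ⟨p.length, Nat.zero_le _, by simp at this; omega, mv_of p q hm⟩)
    (fun y x _ h => lift _ y x h)
  refine ⟨u, v, hu, hv, Set.Subset.antisymm ?_ h⟩
  rintro w ⟨p, -, hw⟩
  classical
  exact hu.trans ⟨p.takeUntil w hw⟩

end Pool.Agent.Results.MP_31c3fe_co.Two
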